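import Mathlib

set_option autoImplicit false

namespace Pool.Agent.Results.MP_755a2c_co.Counter

/-- `x` lies strictly between `a` and `b` in the linear order of the labels. -/
def Btw {n : ℕ} (a b x : Fin n) : Prop := (a < x ∧ x < b) ∨ (b < x ∧ x < a)

/-- The segments `ab` and `cd` between points of the circle labelled in cyclic order cross:
no common endpoint, and the endpoints alternate. -/
def Cross {n : ℕ} (a b c d : Fin n) : Prop :=
  c ≠ a ∧ c ≠ b ∧ d ≠ a ∧ d ≠ b ∧ (Btw a b c ↔ ¬ Btw a b d)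

/-- The edges of `G` crossing the segment `ab` contain `m` pairwise independent edges. -/
def Pierced {n : ℕ} (G : SimpleGraph (Fin n)) (a b : Fin n) (m : ℕ) : Prop :=
  ∃ x y : Fin m → Fin n, (∀ i, G.Adj (x i) (y i) ∧ Cross a b (x i) (y i)) ∧
    ∀ i j, i ≠ j → x i ≠ x j ∧ x i ≠ y j ∧ y i ≠ y j

/-- The circular drawing of `G` is `k`-matching-planar. -/
def MatchingPlanar {n : ℕ} (G : SimpleGraph (Fin n)) (k : ℕ) : Prop :=
  ∀ a b, G.Adj a b → ¬ Pierced G a b (k + 1)

/-- A triangulation of the outer cycle: an inclusion-maximal set of pairwise non-crossing segments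
(the sides cross nothing, so they all belong to it). -/
def IsTriang {n : ℕ} (T : SimpleGraph (Fin n)) : Prop :=
  (∀ a b c d, T.Adj a b → T.Adj c d → ¬ Cross a b c d) ∧
    ∀ a b, a ≠ b → (∀ c d, T.Adj c d → ¬ Cross a b c d) → T.Adj a b

def G (n k : ℕ) : SimpleGraph (Fin n) where
  Adj u v := u.val ≠ v.val ∧ ((u.val ≤ v.val + (k + 1) ∧ v.val ≤ u.val + (k + 1)) ∨
    u.val + n ≤ v.val + (k + 1) ∨ v.val + n ≤ u.val + (k + 1))
  symm := ⟨fun u v h => by omega⟩
  loopless := ⟨fun u h => h.1 rfl⟩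

theorem cross_iff {n : ℕ} (a b c d : Fin n) : Cross a b c d ↔
    c.val ≠ a.val ∧ c.val ≠ b.val ∧ d.val ≠ a.val ∧ d.val ≠ b.val ∧
      (((a.val < c.val ∧ c.val < b.val) ∨ (b.val < c.val ∧ c.val < a.val)) ↔
        ¬ ((a.val < d.val ∧ d.val < b.val) ∨ (b.val < d.val ∧ d.val < a.val))) := by
  simp only [Cross, Btw, Fin.lt_def, ne_eq, Fin.ext_iff]

theorem cross_symm {n : ℕ} (a b c d : Fin n) (h : Cross a b c d) : Cross b a c d := by
  rw [cross_iff] at h ⊢
  omega

theorem mp_aux (n k : ℕ) (a b : Fin n) (hab : a.val < b.val) (h : (G n k).Adj a b) :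
    ¬ Pierced (G n k) a b (k + 1) := by
  rintro ⟨x, y, h1, h2⟩
  simp only [G] at h
  have key : ∀ i, ∃ z : Fin n, (z = x i ∨ z = y i) ∧ ∃ r : Fin k,
      (b.val ≤ a.val + (k + 1) ∧ z.val = a.val + 1 + r.val) ∨
      (¬ b.val ≤ a.val + (k + 1) ∧ (z.val = b.val + 1 + r.val ∨ z.val + n = b.val + 1 + r.val)) := by
    intro i
    have hc := (cross_iff _ _ _ _).1 (h1 i).2
    have hx := (x i).2
    have hy := (y i).2
    have hb := b.2
    by_cases hs : b.val ≤ a.val + (k + 1)
    · by_cases hin : a.val < (x i).val ∧ (x i).val < b.val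
      · exact ⟨x i, Or.inl rfl, ⟨(x i).val - a.val - 1, by omega⟩, Or.inl ⟨hs, by simp only; omega⟩⟩
      · exact ⟨y i, Or.inr rfl, ⟨(y i).val - a.val - 1, by omega⟩, Or.inl ⟨hs, by simp only; omega⟩⟩
    · by_cases hin : a.val < (x i).val ∧ (x i).val < b.val
      · by_cases h3 : b.val < (y i).val
        · exact ⟨y i, Or.inr rfl, ⟨(y i).val - b.val - 1, by omega⟩,
            Or.inr ⟨hs, by simp only; omega⟩⟩
        · exact ⟨y i, Or.inr rfl, ⟨(y i).val + n - b.val - 1, by omega⟩,
            Or.inr ⟨hs, by simp only; omega⟩⟩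
      · by_cases h3 : b.val < (x i).val
        · exact ⟨x i, Or.inl rfl, ⟨(x i).val - b.val - 1, by omega⟩,
            Or.inr ⟨hs, by simp only; omega⟩⟩
        · exact ⟨x i, Or.inl rfl, ⟨(x i).val + n - b.val - 1, by omega⟩,
            Or.inr ⟨hs, by simp only; omega⟩⟩
  choose z hz r hr using key
  have inj : Function.Injective r := by
    intro i j hij
    by_contra hne
    have e : z i = z j := by
      have h3 := hr i
      have h4 := hr j
      have := (z i).2
      have := (z j).2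
      rw [hij] at h3
      exact Fin.ext (by omega)
    obtain ⟨p1, p2, p3⟩ := h2 i j hne
    obtain ⟨-, p4, -⟩ := h2 j i (Ne.symm hne)
    rcases hz i with q | q <;> rcases hz j with q' | q' <;> rw [q, q'] at e
    · exact p1 e
    · exact p2 e
    · exact p4 e.symm
    · exact p3 e
  have := Fintype.card_le_of_injective r inj
  simp at this

theorem mp (n k : ℕ) : MatchingPlanar (G n k) k := by
  intro a b h
  rcases lt_trichotomy a.val b.val with h1 | h1 | h1
  · exact mp_aux n k a b h1 h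
  · exact absurd h1 h.1
  · rintro ⟨x, y, h2, h3⟩
    exact mp_aux n k b a h1 h.symm ⟨x, y, fun i => ⟨(h2 i).1, cross_symm _ _ _ _ (h2 i).2⟩, h3⟩

theorem apex {n : ℕ} (T : SimpleGraph (Fin n)) (hT : IsTriang T) (a b : Fin n)
    (hab : a.val + 2 ≤ b.val) (h : T.Adj a b) :
    ∃ c : Fin n, a.val < c.val ∧ c.val < b.val ∧ T.Adj a c ∧ T.Adj c b := by
  classical
  have hb := b.2
  have h1 : T.Adj a ⟨a.val + 1, by omega⟩ := hT.2 _ _ (by simp [Fin.ext_iff]) fun c d _ hc => by
    rw [cross_iff] at hc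
    simp only at hc
    omega
  obtain ⟨c, hc, hmax⟩ := Finset.exists_max_image
    (Finset.univ.filter fun c : Fin n => a.val < c.val ∧ c.val < b.val ∧ T.Adj a c)
    (fun c => c.val) ⟨⟨a.val + 1, by omega⟩, by
      simp only [Finset.mem_filter, Finset.mem_univ, true_and]
      exact ⟨by omega, by omega, h1⟩⟩
  simp only [Finset.mem_filter, Finset.mem_univ, true_and] at hc hmax
  refine ⟨c, hc.1, hc.2.1, hc.2.2, hT.2 _ _ (by simp only [ne_eq, Fin.ext_iff]; omega) ?_⟩
  intro x y hxy hcr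
  have n1 := hT.1 a b x y h hxy
  have n2 := hT.1 a c x y hc.2.2 hxy
  rw [cross_iff] at hcr n1 n2
  by_cases hx : x = a
  · subst hx
    have := hmax y ⟨by omega, by omega, hxy⟩
    omega
  · by_cases hy : y = a
    · subst hy
      have := hmax x ⟨by omega, by omega, hxy.symm⟩
      omega
    · have : x.val ≠ a.val := fun h => hx (Fin.ext h)
      have : y.val ≠ a.val := fun h => hy (Fin.ext h)
      omega

theorem balanced {n : ℕ} (k : ℕ) (hn : 3 * k + 4 ≤ n) (T : SimpleGraph (Fin n)) (hT : IsTriang T) :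
    ∃ a b : Fin n, T.Adj a b ∧ a.val + (k + 2) ≤ b.val ∧ b.val ≤ a.val + (2 * k + 2) := by
  classical
  have h1 : T.Adj ⟨0, by omega⟩ ⟨n - 1, by omega⟩ :=
    hT.2 _ _ (by simp only [ne_eq, Fin.ext_iff]; omega) fun c d _ hc => by
      rw [cross_iff] at hc
      have := c.2
      have := d.2
      simp only at hc
      omega
  obtain ⟨p, hp, hmin⟩ := Finset.exists_min_image
    (Finset.univ.filter fun p : Fin n × Fin n => T.Adj p.1 p.2 ∧ p.1.val + (k + 2) ≤ p.2.val)
    (fun p => p.2.val - p.1.val) ⟨(⟨0, by omega⟩, ⟨n - 1, by omega⟩), by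
      simp only [Finset.mem_filter, Finset.mem_univ, true_and]
      exact ⟨h1, by omega⟩⟩
  simp only [Finset.mem_filter, Finset.mem_univ, true_and] at hp hmin
  refine ⟨p.1, p.2, hp.1, hp.2, ?_⟩
  obtain ⟨c, c1, c2, c3, c4⟩ := apex T hT p.1 p.2 (by omega) hp.1
  by_contra hc
  by_cases h2 : p.1.val + (k + 2) ≤ c.val
  · have := hmin (p.1, c) ⟨c3, h2⟩
    simp only at this
    omega
  · have := hmin (c, p.2) ⟨c4, by simp only; omega⟩
    simp only at this
    omega

theorem pierced {n : ℕ} (k : ℕ) (hk : 1 ≤ k) (hn : 3 * k + 4 ≤ n) (a b : Fin n)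
    (h1 : a.val + (k + 2) ≤ b.val) (h2 : b.val ≤ a.val + (2 * k + 2)) :
    Pierced (G n k) a b (k + 1) := by
  have hb := b.2
  refine ⟨fun i => ⟨if i.val = k then b.val - 1 else a.val + 1 + i.val, by
      have := i.2; split_ifs <;> omega⟩,
    fun i => ⟨if i.val = k then (if b.val + 1 < n then b.val + 1 else 0) else
      (if k - i.val ≤ a.val then a.val - (k - i.val) else a.val + n - (k - i.val)), by
      have := i.2; split_ifs <;> omega⟩, fun i => ⟨?_, ?_⟩, fun i j hij => ?_⟩
  · have := i.2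
    simp only [G]
    split_ifs <;> omega
  · have := i.2
    rw [cross_iff]
    simp only
    split_ifs <;> omega
  · have := i.2
    have := j.2
    have : i.val ≠ j.val := fun h => hij (Fin.ext h)
    simp only [ne_eq, Fin.mk.injEq]
    split_ifs <;> omega

/-- For every `k ≥ 1` and `n ≥ 3k+4` there is a circular `k`-matching-planar drawing on `n` points
such that every triangulation has a segment pierced by `k+1` independent edges. -/
theorem result : ∀ k n : ℕ, 1 ≤ k → 3 * k + 4 ≤ n → ∃ H : SimpleGraph (Fin n),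
    MatchingPlanar H k ∧ ∀ T : SimpleGraph (Fin n), IsTriang T →
      ∃ a b, T.Adj a b ∧ Pierced H a b (k + 1) := by
  intro k n hk hn
  refine ⟨G n k, mp n k, fun T hT => ?_⟩
  obtain ⟨a, b, h, h1, h2⟩ := balanced k hn T hT
  exact ⟨a, b, h, pierced k hk hn a b h1 h2⟩

end Pool.Agent.Results.MP_755a2c_co.Counter
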